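import Pool.Agent.H.MP_e2e219_gt.A

set_option autoImplicit false

namespace Pool.Agent.Results.MP_5f2357_gt.NotStrongD

open Set

/-- strong d-space; `x ≤ y` is `x ∈ closure {y}`. -/
def StrongD (X : Type) [TopologicalSpace X] : Prop :=
  T0Space X ∧ ∀ D : Set X, D.Nonempty → DirectedOn (fun x y => x ∈ closure {y}) D →
    ∀ (x : X) (U : Set X), IsOpen U →
      (⋂ d ∈ D, {y | d ∈ closure {y}}) ∩ {y | x ∈ closure {y}} ⊆ U →
      ∃ d ∈ D, {y | d ∈ closure {y}} ∩ {y | x ∈ closure {y}} ⊆ U

theorem result : ∃ (X Y : Type) (_ : TopologicalSpace X) (_ : TopologicalSpace Y),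
    T0Space X ∧ StrongD Y ∧ ¬ StrongD {f : X → Y // Continuous f} := by
  open H.MP_e2e219_gt in
  refine ⟨Bool, YY, inferInstance, inferInstance, inferInstance, SD_Y,
    bad (fun f => f.1 true) (fun f => f.1 false)
    ((continuous_apply _).comp continuous_subtype_val)
    ((continuous_apply _).comp continuous_subtype_val)
    (fun u v => ⟨fun i => cond i u v, continuous_of_discreteTopology⟩) (fun _ _ => rfl)
    (fun _ _ => rfl) fun u v u' v' h1 h2 => ?_⟩
  rw [← specializes_iff_mem_closure, subtype_specializes_iff, specializes_pi]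
  intro i
  rw [specializes_iff_mem_closure, H.MP_e2e219_gt.cl_iff]
  cases i
  · exact h2
  · exact h1

end Pool.Agent.Results.MP_5f2357_gt.NotStrongD
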